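import Pool.Agent.U151.HH.All
import Pool.Agent.U151.LB.Sub
import Pool.Agent.Results.MP_6c8efb_pr.SpecialPoints

/-!
# The half-plane exploration path of critical bond percolation: the sides of all subpaths

Critical bond percolation on `ℤ × ℕ`, the edges `[x, x + 1]` of the real axis open for `x < 0` and
closed for `x ≥ 0`. The exploration path starts next to the origin and keeps the open cluster of
the negative half-axis on its left; `gam ω k` is its point after `k` steps, and `curve n ω` is the
path `n ^ (-4/7) γ(n t)`, `0 ≤ t ≤ 1`, with law `lawH n`. Weak limits exist along a subsequence of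
every sequence `n → ∞`.

For every weak limit, almost surely, simultaneously for ALL `0 ≤ s < t ≤ 1`: the union of the
boundaries of the components of the complement of the subpath `f [s, t]` has Hausdorff dimension
exactly `4/3`, and so have the points of `f [s, t]` in the open half-plane which lie on the boundary
of a component of the complement of `f [s', t']` for all `s' ≤ s` and `t' ≥ t`; the times in `[s, t]`
at which `f` is in these sets have dimension exactly `16/21`.

Definitions: `Pool.Agent.H984R4.HN.HPDefs` (`Conf`, `perc`, `opn`, `step`, `path`, `place`, `gam`,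
`curve`), `Pool.Agent.H984R4.HN.FinalH` (`lawH`), `Pool.Agent.H984R4.NP.Model` (`pl`, `clamp`).

The starting file `SidesExact` has the pasts `f [0, t]` and the points near the origin: there the
good vertices are found in independent annuli around the starting point, through which the path
passes. Here the path has to be followed. Run backwards, it is an orbit of the interface rule of the
library for the rectangle; every strand of macroscopic size in the bulk is explored step by step, and
at the tips of longer and longer strands trials are made, in which two hooks of open and closed edges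
guide the interface to a fresh square with about `m ^ (4/3)` vertices with two arms and a thick path;
a side potential shows that these vertices are visited by this very strand (`Pool.Agent.U151.LB`, made
for `MP_fe58d8_pr.ArcFrontiers`). The probability that all of `K` trials fail is exponentially small in
`K`, the number of strands only polynomial. The passage to the limit uses closed sets of curves, for
all pairs of times at once. Upper bound: a point on the boundary of a component of the complement of
`f [s, t]` is accessible from the complement of the whole path, or a double point, or on the real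
line, or one of the points `f s`, `f t`, `f 1`.
-/

set_option autoImplicit false

namespace Pool.Agent.Results.MP_6c8efb_pr.ArcSides

open H984H MeasureTheory Filter Topology
open scoped ENNReal NNReal

/-- The union of the boundaries of all connected components of the complement of `K`. -/
def sides (K : Set ℂ) : Set ℂ := ⋃ x : ℂ, frontier (connectedComponentIn Kᶜ x)

/-- The points of the subpath `f [s, t]` which belong to `sides (f [s', t'])` for all `s' ≤ s` and
all `t' ≥ t`. -/
def lasting (f : C(unitInterval, ℂ)) (s t : unitInterval) : Set ℂ :=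
  {z | z ∈ f '' Set.Icc s t ∧
    ∀ s' t' : unitInterval, s' ≤ s → t ≤ t' → z ∈ sides (f '' Set.Icc s' t')}

/-- The open upper half-plane. -/
def upperHalf : Set ℂ := {w | 0 < w.im}

/-- The times in `[s, t]` at which `f` is in `S`. -/
def times (f : C(unitInterval, ℂ)) (s t : unitInterval) (S : Set ℂ) : Set unitInterval :=
  {r | r ∈ Set.Icc s t ∧ f r ∈ S}

theorem lasting_eq (f : C(unitInterval, ℂ)) (s t : unitInterval) :
    lasting f s t = sides (Set.range f) ∩ f '' Set.Icc s t := by
  ext z
  constructor
  · rintro ⟨h1, h2⟩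
    refine ⟨?_, h1⟩
    have h3 := h2 0 1 s.2.1 t.2.2
    have e : f '' Set.Icc (0 : unitInterval) 1 = Set.range f := by
      rw [← Set.image_univ]
      congr 1
      exact Set.eq_univ_of_forall fun x => ⟨x.2.1, x.2.2⟩
    rwa [e] at h3
  · rintro ⟨h1, h2⟩
    refine ⟨h2, fun s' t' hs ht => ?_⟩
    refine Pool.Agent.U151.LB.Fro_anti (isCompact_Icc.image f.continuous).isClosed
      (Set.image_subset_range _ _) ?_ h1
    exact Set.image_mono (Set.Icc_subset_Icc hs ht) h2

theorem times_dim {f : C(unitInterval, ℂ)} (hu : ∀ E : Set unitInterval,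
    dimH (f '' E) = 7 / 4 * dimH E) {s t : unitInterval} {S : Set ℂ}
    (hS : S ⊆ f '' Set.Icc s t) (h : dimH S = 4 / 3) :
    dimH (times f s t S) = 16 / 21 := by
  have e : f '' (times f s t S) = S := by
    ext z
    constructor
    · rintro ⟨r, hr, rfl⟩
      exact hr.2
    · intro hz
      obtain ⟨r, hr, rfl⟩ := hS hz
      exact ⟨r, ⟨hr, hz⟩, rfl⟩
  have h4 := hu (times f s t S)
  rw [e, h] at h4
  have a1 : (4 / 7 : ℝ≥0∞) = ENNReal.ofReal (4 / 7) := by
    rw [ENNReal.ofReal_div_of_pos (by norm_num)]; norm_num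
  have a2 : (7 / 4 : ℝ≥0∞) = ENNReal.ofReal (7 / 4) := by
    rw [ENNReal.ofReal_div_of_pos (by norm_num)]; norm_num
  have a3 : (4 / 3 : ℝ≥0∞) = ENNReal.ofReal (4 / 3) := by
    rw [ENNReal.ofReal_div_of_pos (by norm_num)]; norm_num
  have a4 : (16 / 21 : ℝ≥0∞) = ENNReal.ofReal (16 / 21) := by
    rw [ENNReal.ofReal_div_of_pos (by norm_num)]; norm_num
  have e2 : (4 / 7 : ℝ≥0∞) * (7 / 4) = 1 := by
    rw [a1, a2, ← ENNReal.ofReal_mul (by norm_num)]
    norm_num
  calc dimH (times f s t S) = 4 / 7 * (7 / 4 * dimH (times f s t S)) := by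
        rw [← mul_assoc, e2, one_mul]
    _ = 4 / 7 * (4 / 3) := by rw [← h4]
    _ = 16 / 21 := by
        rw [a1, a3, a4, ← ENNReal.ofReal_mul (by norm_num)]
        norm_num

theorem dim_Icc {s t : unitInterval} (hst : s < t) : dimH (Set.Icc s t) = 1 := by
  have hst' : (s : ℝ) < t := hst
  have h1 : (fun x : unitInterval => (x : ℝ)) '' Set.Icc s t = Set.Icc (s : ℝ) t := by
    ext y
    constructor
    · rintro ⟨x, hx, rfl⟩
      exact hx
    · intro hy
      exact ⟨⟨y, s.2.1.trans hy.1, hy.2.trans t.2.2⟩, hy, rfl⟩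
  have h2 : Isometry (fun x : unitInterval => (x : ℝ)) := isometry_subtype_coe
  rw [← h2.dimH_image, h1]
  have h3 : (interior (Set.Icc (s : ℝ) t)).Nonempty := by
    rw [interior_Icc]
    exact Set.nonempty_Ioo.2 hst'
  rw [Real.dimH_of_nonempty_interior h3, Module.finrank_self, Nat.cast_one]

theorem one_lt : (1 : ℝ≥0∞) < 7 / 4 := by
  rw [ENNReal.lt_div_iff_mul_lt (Or.inl (by norm_num)) (Or.inl (by norm_num))]
  norm_num

theorem one_lt' : (1 : ℝ≥0∞) < 4 / 3 := by
  rw [ENNReal.lt_div_iff_mul_lt (Or.inl (by norm_num)) (Or.inl (by norm_num))]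
  norm_num

theorem le34 : (3 / 4 : ℝ≥0∞) ≤ 4 / 3 := by
  have h1 : (3 / 4 : ℝ≥0∞) ≤ 1 := by
    rw [ENNReal.div_le_iff_le_mul (Or.inl (by norm_num)) (Or.inl (by norm_num))]
    norm_num
  exact h1.trans one_lt'.le

/-- The real line. -/
def line : Set ℂ := {z | z.im = 0}

theorem dim_line : dimH line ≤ 1 := by
  have h1 : line ⊆ Set.range (fun x : ℝ => (x : ℂ)) := by
    intro z hz
    exact ⟨z.re, Complex.ext rfl (by simpa using (Eq.symm hz))⟩
  have h2 : LipschitzWith 1 (fun x : ℝ => (x : ℂ)) := Complex.isometry_ofReal.lipschitz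
  have h3 := h2.dimH_range_le
  rw [Real.dimH_univ] at h3
  exact (dimH_mono h1).trans h3

theorem acc_sub (f : C(unitInterval, ℂ)) :
    (⋃ i : ℕ, Pool.Agent.TH990.FU.Acc (1 / ((i:ℝ) + 1)) f) ⊆
      (⋃ i : ℕ, Pool.Agent.TH990.HP.AccT (1 / ((i:ℝ) + 1)) f) ∪ {f 1} := by
  intro w hw
  by_cases h : w = f 1
  · exact Or.inr h
  · left
    obtain ⟨i, hi⟩ := Set.mem_iUnion.1 hw
    obtain ⟨j, hj⟩ := exists_nat_one_div_lt (dist_pos.2 h)
    have e : f.comp (Pool.Agent.TH990.HP.mT 1) = f := by
      ext x
      show f (1 * x) = f x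
      rw [one_mul]
    refine Set.mem_iUnion.2 ⟨max i j, 1, ?_, ?_⟩
    · rw [e]
      exact Pool.Agent.TH990.FU.Acc_anti (Nat.one_div_le_one_div (le_max_left i j)) _ hi
    · refine (Nat.one_div_le_one_div (le_max_right i j)).trans ?_
      rw [dist_comm]
      exact hj.le

/-- **The sides of all subpaths.**
(1) Every sequence `φ → ∞` has a subsequence along which the law of the rescaled path converges.
(2) For every limit, almost surely, for all `s < t` in `[0, 1]`: the sides of `f [s, t]` have Hausdorff
dimension exactly `4/3` and `f` is there, between `s` and `t`, on a set of times of dimension exactly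
`16/21`; the same is true for the points in the open half-plane which are on the sides of all the
subpaths `f [s', t']`, `s' ≤ s`, `t ≤ t'`. -/
theorem result :
    (∀ φ : ℕ → ℕ, Tendsto φ atTop atTop → ∃ ψ : ℕ → ℕ, StrictMono ψ ∧
      ∃ μ : ProbabilityMeasure C(unitInterval, ℂ),
        Tendsto (fun i => lawH (φ (ψ i))) atTop (𝓝 μ)) ∧
    (∀ φ : ℕ → ℕ, Tendsto φ atTop atTop → ∀ μ : ProbabilityMeasure C(unitInterval, ℂ),
      Tendsto (fun i => lawH (φ i)) atTop (𝓝 μ) →
      ∀ᵐ f : C(unitInterval, ℂ) ∂(μ : Measure C(unitInterval, ℂ)), ∀ s t : unitInterval, s < t →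
        (dimH (sides (f '' Set.Icc s t)) = 4 / 3 ∧
          dimH (times f s t (sides (f '' Set.Icc s t))) = 16 / 21) ∧
        (dimH (lasting f s t ∩ upperHalf) = 4 / 3 ∧
          dimH (times f s t (lasting f s t ∩ upperHalf)) = 16 / 21)) := by
  refine ⟨UniformDimension.result.1, fun φ hφ μ hμ => ?_⟩
  filter_upwards [UniformDimension.result.2 φ hφ μ hμ,
    Displacement.result.2.2.2.2.2 φ hφ μ hμ, (SpecialPoints.result.2 φ hφ μ hμ).2.1,
    Pool.Agent.TH990.HP.fix3 Pool.Agent.W424.KI.u3 hφ hμ Set.univ,
    Pool.Agent.U151.HH.arcsH hφ hμ] with f hu hd hs hacc harc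
  obtain ⟨-, him, -, -, -⟩ := hd
  intro s t hst
  -- the part outside the half-plane
  have hout : ∀ A : Set ℂ, A ⊆ Set.range f → dimH (A \ upperHalf) ≤ 1 := by
    intro A hA
    refine (dimH_mono ?_).trans dim_line
    rintro z ⟨hz, hzD⟩
    obtain ⟨x, rfl⟩ := hA hz
    exact le_antisymm (not_lt.1 hzD) (him x)
  have hns : ¬ (f '' Set.Icc s t).Subsingleton := by
    intro hcon
    have h3 := hu (Set.Icc s t)
    rw [dimH_subsingleton hcon, dim_Icc hst, mul_one] at h3
    have h4 : (0 : ℝ≥0∞) < 7 / 4 := lt_trans one_pos one_lt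
    exact absurd h3 h4.ne
  have hmeet : (f '' Set.Icc s t ∩ {z | 0 < z.im}).Nonempty := by
    by_contra hcon
    rw [Set.not_nonempty_iff_eq_empty] at hcon
    have h3 : f '' Set.Icc s t \ upperHalf = f '' Set.Icc s t :=
      sdiff_eq_left.2 (Set.disjoint_iff_inter_eq_empty.2 hcon)
    have h4 := hout _ (Set.image_subset_range f (Set.Icc s t))
    rw [h3, hu, dim_Icc hst, mul_one] at h4
    exact absurd h4 (not_le.2 one_lt)
  have hlow : (4 / 3 : ℝ≥0∞) ≤ dimH (lasting f s t) := by
    rw [lasting_eq]
    exact harc s t hmeet hns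
  have hsidesub : sides (f '' Set.Icc s t) ⊆ f '' Set.Icc s t := by
    intro w hw
    have h3 : sides (f '' Set.Icc s t) ⊆ sides (Set.range (Pool.Agent.U151.LB.subp f s t)) := by
      rw [Pool.Agent.U151.LB.range_subp f hst]
    have hne : ∃ a b, Pool.Agent.U151.LB.subp f s t a ≠ Pool.Agent.U151.LB.subp f s t b := by
      rw [Set.not_subsingleton_iff] at hns
      obtain ⟨x, hx, y, hy, hxy⟩ := hns
      rw [← Pool.Agent.U151.LB.range_subp f hst] at hx hy
      obtain ⟨a, rfl⟩ := hx
      obtain ⟨b, rfl⟩ := hy
      exact ⟨a, b, hxy⟩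
    obtain ⟨i, hi⟩ := Set.mem_iUnion.1 (Pool.Agent.TH990.FU.frontiers_acc hne (h3 hw))
    rw [← Pool.Agent.U151.LB.range_subp f hst]
    exact hi.1
  have hlastsub : lasting f s t ⊆ sides (f '' Set.Icc s t) := fun z hz =>
    hz.2 s t le_rfl le_rfl
  have hsr : sides (f '' Set.Icc s t) ⊆ Set.range f :=
    hsidesub.trans (Set.image_subset_range _ _)
  -- the upper bound
  have hup : dimH (sides (f '' Set.Icc s t)) ≤ 4 / 3 := by
    have h1 : sides (f '' Set.Icc s t) ∩ upperHalf ⊆
        ((⋃ i : ℕ, Pool.Agent.TH990.HP.AccT (1 / ((i:ℝ) + 1)) f) ∩ Set.univ ∩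
          Pool.Agent.TH990.HP.Hp) ∪ ((SpecialPoints.doublePoints f ∩ SpecialPoints.upperHalf) ∪
          {f s, f t, f 1}) := by
      rintro w ⟨hw, hw1⟩
      rcases Pool.Agent.U151.LB.sides_sub hst hns hw with h | h | h
      · rcases acc_sub f h with h2 | h2
        · exact Or.inl ⟨⟨h2, trivial⟩, hw1⟩
        · exact Or.inr (Or.inr (Or.inr (Or.inr h2)))
      · exact Or.inr (Or.inl ⟨h, hw1⟩)
      · rcases h with h | h
        · exact Or.inr (Or.inr (Or.inl h))
        · exact Or.inr (Or.inr (Or.inr (Or.inl h)))
    have h2 : dimH (sides (f '' Set.Icc s t) ∩ upperHalf) ≤ 4 / 3 := by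
      refine (dimH_mono h1).trans ?_
      rw [dimH_union, dimH_union]
      refine max_le ?_ (max_le ?_ ?_)
      · have h3 := hacc.1
        rwa [SpecialPoints.dimC, SpecialPoints.e23, SpecialPoints.e43] at h3
      · exact hs.1.trans le34
      · have h3 : ({f s, f t, f 1} : Set ℂ).Countable := (Set.toFinite _).countable
        rw [h3.dimH_zero]
        exact bot_le
    rw [← Set.inter_union_sdiff (sides (f '' Set.Icc s t)) upperHalf, dimH_union]
    exact max_le h2 ((hout _ hsr).trans one_lt'.le)
  have hside : dimH (sides (f '' Set.Icc s t)) = 4 / 3 :=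
    le_antisymm hup (hlow.trans (dimH_mono hlastsub))
  have hlast : dimH (lasting f s t ∩ upperHalf) = 4 / 3 := by
    refine le_antisymm ((dimH_mono (Set.inter_subset_left.trans hlastsub)).trans hup) ?_
    rw [← Set.inter_union_sdiff (lasting f s t) upperHalf, dimH_union] at hlow
    rcases le_max_iff.1 hlow with h | h
    · exact h
    · exfalso
      have h3 := h.trans (hout _ (hlastsub.trans hsr))
      exact absurd h3 (not_le.2 one_lt')
  exact ⟨⟨hside, times_dim hu hsidesub hside⟩, hlast,
    times_dim hu ((Set.inter_subset_left.trans hlastsub).trans hsidesub) hlast⟩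

end Pool.Agent.Results.MP_6c8efb_pr.ArcSides
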