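import Pool.Agent.U198.HP.Exit

/-!
# The exploration path near time `n` and near its exit times: all orders

The path `path ω 0, path ω 1, …` is the exploration path of critical bond percolation in the
half-plane, in the setting of the problem (`H984H.path`; `H984H.perc` is the law of the coins). A
state is a vertex together with one of the four corners at it. `oddL p t` is the list of those
states among `p 0, …, p (t - 1)` whose vertex `(x, y)` has `x + y` odd, in their order, and
`tau R p` is the first time at which the point of the path is at distance at least `R` from the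
origin.

* The law of the pair formed by `oddL` at time `n` and the path after time `n` changes little with
  `n`: for every `r` its differences of order `r` (in steps of `4`, the period of the path) are
  `O (n ^ (-r / 2))` in total variation.
* The same holds for the triple formed by the exit time, `oddL` at the exit time and the path
  after the exit time, with `O ((log R) ^ (3 r / 8) * R ^ (-7 r / 8))`.
-/

set_option autoImplicit false

namespace Pool.Agent.Results.MP_6c8efb_pr.FutureLaw

open H974 H984P H984H MeasureTheory Finset Pool.Agent.U198.HP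

theorem result (r : ℕ) : ∃ C : ℝ, 0 < C ∧
    (∀ n : ℕ, 1 ≤ n → ∀ (L : ℕ) (Φ : List St → (ℕ → St) → ℝ), (∀ a b, |Φ a b| ≤ 1) →
      |∑ i ∈ range (r + 1), (-1 : ℝ) ^ i * (r.choose i : ℝ) *
        ∫ ω, Φ (oddL (path ω) (n + 4 * i)) (fun k => path ω (n + 4 * i + min k L)) ∂perc| ≤
      C / Real.sqrt n ^ r) ∧
    (∀ R : ℝ, 2 ≤ R → ∀ (L : ℕ) (Ψ : ℕ → List St → (ℕ → St) → ℝ), (∀ a b c, |Ψ a b c| ≤ 1) →
      |∑ i ∈ range (r + 1), (-1 : ℝ) ^ i * (r.choose i : ℝ) *
        ∫ ω, Ψ (tau R (path ω) + 4 * i) (oddL (path ω) (tau R (path ω)))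
          (fun k => path ω (tau R (path ω) + min k L)) ∂perc| ≤
      C * Real.log R ^ (3 * r / 8 : ℝ) / R ^ (7 * r / 8 : ℝ)) := by
  obtain ⟨C, hC, h⟩ := mainP r
  obtain ⟨C', hC', h'⟩ := exitR r
  refine ⟨C + C', by positivity, ?_, ?_⟩
  · intro n hn L Φ hΦ
    refine (h n hn L Φ hΦ).trans ?_
    have hn0 : (0 : ℝ) < n := by exact_mod_cast hn
    have h1 : 0 < Real.sqrt n ^ r := pow_pos (Real.sqrt_pos.2 hn0) _
    exact div_le_div_of_nonneg_right (by linarith) h1.le
  · intro R hR L Ψ hΨ
    refine (h' R hR L Ψ hΨ).trans ?_
    have hR0 : 0 < R := by linarith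
    have hlog0 : 0 < Real.log R := Real.log_pos (by linarith)
    have h1 : 0 < R ^ (7 * r / 8 : ℝ) := by positivity
    have h2 : 0 ≤ Real.log R ^ (3 * r / 8 : ℝ) := by positivity
    exact div_le_div_of_nonneg_right (mul_le_mul_of_nonneg_right (by linarith) h2) h1.le

end Pool.Agent.Results.MP_6c8efb_pr.FutureLaw
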