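import Pool.Agent.U167.LP.Fin

/-!
# The left-passage probabilities of the critical exploration path

Critical bond percolation on `ℤ²` (`p = 1/2`) in the closed upper half-plane. Let `C₋` be the union
of the open clusters (of the half-plane) of the boundary vertices `(s, 0)`, `s ≤ 0`, joined together
along the boundary. The exploration path from the origin follows the boundary of `C₋`; a face of the
lattice lies to the left of it when it is surrounded by `C₋`, that is, when some open walk of the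
half-plane from `(s, 0)` to `(t, 0)`, `s, t ≤ 0`, crosses the horizontal half-line from the centre of
the face to the right an odd number of times. `leftProb x y` is the probability of this event for the
face with the lower left corner `(x, y)`.

Schramm's formula predicts `leftProb (M x) (M y) → h(x / y)` with `h' = - (1 + t ^ 2) ^ (-2/3) / Z`.
The theorem is:

* (1) up to constants, `leftProb` is given by Schramm's formula in the whole half-plane, and so is
  its horizontal difference in every cone; the upper bound for the difference holds everywhere, and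
  both are Hölder continuous with exponent `5/48`, uniformly in the scale;
* (2) every sequence of scales has a subsequence with a scaling limit `(S, ρ)`: `leftProb` converges
  to `S` and the rescaled horizontal difference converges to `ρ`, pointwise, along all lattice
  approximations;
* (3), (4) in every scaling limit `ρ(·, y)` is a continuous probability density, `S` is its tail
  function, both are uniformly Hölder continuous and satisfy the bounds of (1);
* (5) Schramm's formula is equivalent to its local form for the differences at single faces;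
* (6) more generally, if `leftProb` has a limit, then it is differentiable in `x` and the
  differences converge to the derivative.
-/

namespace Pool.Agent.Results.MP_6c8efb_pr.LeftPassage

open H974 H731C MeasureTheory Filter Topology Set

/-- The number of the steps of the walk `p` which cross the horizontal half-line from the centre of
the face `f` (with lower left corner `f`) to the right. -/
def crossings (f : ℤ × ℤ) {ω : sqLattice.edgeSet → Bool} {u v : ℤ × ℤ}
    (p : (openGraph ω).Walk u v) : ℕ :=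
  p.darts.countP (fun d => decide (f.1 < d.fst.1 ∧ ((d.fst.2 = f.2 ∧ d.snd.2 = f.2 + 1) ∨
    (d.fst.2 = f.2 + 1 ∧ d.snd.2 = f.2))))

/-- The face `f` is surrounded by `C₋`: it lies to the left of the exploration path. -/
def LeftOf (f : ℤ × ℤ) : Set (sqLattice.edgeSet → Bool) :=
  {ω | ∃ s t : ℤ, s ≤ 0 ∧ t ≤ 0 ∧ ∃ p : (openGraph ω).Walk (s, 0) (t, 0),
    (∀ v ∈ p.support, 0 ≤ v.2) ∧ Odd (crossings f p)}

/-- The probability, at the critical point, that the face with lower left corner `(x, y)` lies to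
the left of the exploration path. -/
noncomputable def leftProb (x y : ℤ) : ℝ := (bondLaw half).real (LeftOf (x, y))

/-- The horizontal difference. -/
noncomputable def dif (x y : ℤ) : ℝ := leftProb x y - leftProb (x + 1) y

/-- Schramm's density at height `y`, without normalisation. -/
noncomputable def dens (x y : ℝ) : ℝ := y ^ ((1 : ℝ) / 3) / (x ^ 2 + y ^ 2) ^ ((2 : ℝ) / 3)

/-- The size of the tails in Schramm's formula. -/
noncomputable def tail (x y : ℝ) : ℝ := (y / (|x| + y)) ^ ((1 : ℝ) / 3)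

/-- Schramm's function: `h(x / y)` is the probability that SLE(6) from `0` to `∞` in the upper
half-plane passes to the right of the point `x + i y`. -/
noncomputable def schramm (t : ℝ) : ℝ :=
  (∫ u in Ioi t, (1 + u ^ 2) ^ (-((2 : ℝ) / 3))) / ∫ u : ℝ, (1 + u ^ 2) ^ (-((2 : ℝ) / 3))

/-- `(S, ρ)` is the scaling limit at the scales `M j`. -/
structure IsLimit (M : ℕ → ℕ) (S ρ : ℝ → ℝ → ℝ) : Prop where
  scale : Tendsto M atTop atTop
  conv : ∀ x y : ℝ, 0 < y → ∀ X Y : ℕ → ℤ, Tendsto (fun j => (X j : ℝ) / M j) atTop (𝓝 x) →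
    Tendsto (fun j => (Y j : ℝ) / M j) atTop (𝓝 y) →
    Tendsto (fun j => leftProb (X j) (Y j)) atTop (𝓝 (S x y)) ∧
      Tendsto (fun j => (M j : ℝ) * dif (X j) (Y j)) atTop (𝓝 (ρ x y))

/-! ### The link with the files used -/

theorem count_cr {ω : sqLattice.edgeSet → Bool} (f : ℤ × ℤ) {e : Edg} {u v : ℤ × ℤ}
    (hc : (src e = u ∧ tgt e = v) ∨ (src e = v ∧ tgt e = u)) :
    decide (f.1 < u.1 ∧ ((u.2 = f.2 ∧ v.2 = f.2 + 1) ∨ (u.2 = f.2 + 1 ∧ v.2 = f.2))) =
      U167.LP.cr f e := by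
  obtain ⟨x, y, _ | _⟩ := e
  · rw [U167.LP.cr_false, decide_eq_decide]
    rw [src_mk, tgt_false] at hc
    rcases hc with ⟨h1, h2⟩ | ⟨h1, h2⟩ <;> subst h1 h2 <;> simp only <;> omega
  · rw [U167.LP.cr_true, decide_eq_false_iff_not]
    rw [src_mk, tgt_true] at hc
    rcases hc with ⟨h1, h2⟩ | ⟨h1, h2⟩ <;> subst h1 h2 <;> simp only <;> omega

theorem walk_PR {ω : sqLattice.edgeSet → Bool} {f u v : ℤ × ℤ} (p : (openGraph ω).Walk u v) :
    (∀ w ∈ p.support, 0 ≤ w.2) →
      U167.LP.PR (U167.LP.cr f) (opn ω ∩ U167.HP.up) u v (decide (Odd (crossings f p))) := by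
  induction p with
  | nil =>
    intro _
    simp only [crossings, SimpleGraph.Walk.darts_nil, List.countP_nil]
    exact U167.LP.PR.refl
  | cons h p ih =>
    rename_i u w z
    intro hs
    have ih' := ih (fun t ht => hs t (by simp [ht]))
    have hu : 0 ≤ u.2 := hs u (by simp)
    have hw : 0 ≤ w.2 := hs w (by simp)
    obtain ⟨e, he, hc⟩ := (openGraph_adj ω u w).mp h
    have hup : e ∈ U167.HP.up := by
      have hse : 0 ≤ (src e).2 := by
        rcases hc with ⟨h1, h2⟩ | ⟨h1, h2⟩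
        · rw [h1]; exact hu
        · rw [h1]; exact hw
      exact hse
    have h1 := (U167.LP.PR.refl (φ := U167.LP.cr f) (G := opn ω ∩ U167.HP.up) (u := u)).tail'
      ⟨he, hup⟩ hc
    have h2 := h1.trans ih'
    convert h2 using 1
    unfold crossings
    rw [SimpleGraph.Walk.darts_cons, List.countP_cons]
    simp only
    rw [count_cr (ω := ω) f hc]
    by_cases h3 : U167.LP.cr f e = true
    · rw [h3]
      simp only [if_true, Bool.false_xor, Bool.true_xor]
      rw [← decide_not, decide_eq_decide, Nat.odd_add_one]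
    · rw [Bool.not_eq_true] at h3
      rw [h3]
      simp

theorem PR_walk {ω : sqLattice.edgeSet → Bool} {f u v : ℤ × ℤ} (hu : 0 ≤ u.2) {b : Bool}
    (h : U167.LP.PR (U167.LP.cr f) (opn ω ∩ U167.HP.up) u v b) :
    ∃ p : (openGraph ω).Walk u v, (∀ w ∈ p.support, 0 ≤ w.2) ∧ decide (Odd (crossings f p)) = b := by
  have key : ∀ q : (ℤ × ℤ) × Bool, Relation.ReflTransGen
      (U167.LP.Adj2 (U167.LP.cr f) (opn ω ∩ U167.HP.up)) (u, false) q →
      ∃ p : (openGraph ω).Walk u q.1, (∀ w ∈ p.support, 0 ≤ w.2) ∧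
        decide (Odd (crossings f p)) = q.2 := by
    intro q hq
    induction hq with
    | refl =>
      refine ⟨SimpleGraph.Walk.nil, ?_, ?_⟩
      · intro w hw
        rw [SimpleGraph.Walk.support_nil, List.mem_singleton] at hw
        rw [hw]
        exact hu
      · simp [crossings]
    | @tail a b _ hs ih =>
      obtain ⟨p, hp1, hp2⟩ := ih
      obtain ⟨e, ⟨he, hup⟩, hc, hb⟩ := hs
      have hadj : (openGraph ω).Adj a.1 b.1 := (openGraph_adj ω _ _).mpr ⟨e, he, hc⟩
      refine ⟨p.concat hadj, ?_, ?_⟩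
      · intro w hw
        rw [SimpleGraph.Walk.support_concat, List.mem_append, List.mem_singleton] at hw
        rcases hw with hw | hw
        · exact hp1 w hw
        · rw [hw]
          have h0 : 0 ≤ e.2.1 := hup
          have ha := hp1 a.1 (SimpleGraph.Walk.end_mem_support p)
          obtain ⟨x, y, _ | _⟩ := e
          · rw [src_mk, tgt_false] at hc
            rcases hc with ⟨h1, h2⟩ | ⟨h1, h2⟩
            · rw [← h2]; simp only at h0 ⊢; omega
            · rw [← h1]; exact h0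
          · rw [src_mk, tgt_true] at hc
            rcases hc with ⟨h1, h2⟩ | ⟨h1, h2⟩
            · rw [← h2]; exact h0
            · rw [← h1]; exact h0
      · unfold crossings at hp2 ⊢
        rw [SimpleGraph.Walk.darts_concat, List.concat_eq_append, List.countP_append,
          List.countP_singleton]
        simp only
        rw [count_cr (ω := ω) f hc, hb, ← hp2]
        by_cases h3 : U167.LP.cr f e = true
        · rw [h3]
          simp only [if_true, Bool.xor_true]
          rw [← decide_not, decide_eq_decide, Nat.odd_add_one]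
        · rw [Bool.not_eq_true] at h3
          rw [h3]
          simp
  exact key _ h

theorem leftOf_eq (f : ℤ × ℤ) : LeftOf f = U167.LP.LE 0 f := by
  ext ω
  constructor
  · rintro ⟨s, t, hs, ht, p, hp, hodd⟩
    refine ⟨s, t, hs, ht, ?_⟩
    have := walk_PR (f := f) p hp
    rwa [decide_eq_true hodd] at this
  · rintro ⟨s, t, hs, ht, h⟩
    obtain ⟨p, hp, hb⟩ := PR_walk (le_refl (0:ℤ)) h
    exact ⟨s, t, hs, ht, p, hp, of_decide_eq_true hb⟩

theorem leftProb_eq (x y : ℤ) : leftProb x y = U167.LP.sp x y := by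
  unfold leftProb U167.LP.sp
  rw [leftOf_eq]

theorem dif_eq (x y : ℤ) : dif x y = U167.LP.df x y := by
  unfold dif
  rw [leftProb_eq, leftProb_eq, U167.LP.df_eq]

theorem isLimit_iff (M : ℕ → ℕ) (S ρ : ℝ → ℝ → ℝ) : IsLimit M S ρ ↔ U167.LP.LPL M S ρ := by
  constructor
  · intro h
    refine ⟨h.scale, ?_, ?_⟩
    · intro x y hy X Y hX hY
      refine (h.conv x y hy X Y hX hY).1.congr (fun j => leftProb_eq _ _)
    · intro x y hy X Y hX hY
      refine (h.conv x y hy X Y hX hY).2.congr (fun j => ?_)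
      rw [dif_eq]
  · intro h
    refine ⟨h.top, ?_⟩
    intro x y hy X Y hX hY
    constructor
    · exact (h.cdf x y hy X Y hX hY).congr (fun j => (leftProb_eq _ _).symm)
    · refine (h.loc x y hy X Y hX hY).congr (fun j => ?_)
      rw [dif_eq]

theorem result :
    -- (1) bounds on the lattice
    (∃ c C : ℝ, ∃ y₀ : ℤ, 0 < c ∧ 1 ≤ y₀ ∧ ∀ x y : ℤ, y₀ ≤ y →
      (0 ≤ x → c * tail x y ≤ leftProb x y ∧ leftProb x y ≤ C * tail x y) ∧
      (x ≤ 0 → c * tail x y ≤ 1 - leftProb x y ∧ 1 - leftProb x y ≤ C * tail x y) ∧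
      (0 ≤ dif x y ∧ dif x y ≤ C * dens x y) ∧
      ∀ x' y' : ℤ, ∀ j : ℕ, 1 ≤ j → 8 * (j : ℤ) ≤ y → |x - x'| ≤ j → |y - y'| ≤ j →
        |leftProb x y - leftProb x' y'| ≤ C * ((j : ℝ) / y) ^ ((5 : ℝ) / 48) ∧
        |dif x y - dif x' y'| ≤ C / y * ((j : ℝ) / y) ^ ((5 : ℝ) / 48)) ∧
    (∀ K : ℕ, ∃ c : ℝ, ∃ y₀ : ℤ, 0 < c ∧ ∀ x y : ℤ, y₀ ≤ y → |x| ≤ K * y →
      c * dens x y ≤ dif x y) ∧
    -- (2) existence of scaling limits
    (∀ M : ℕ → ℕ, Tendsto M atTop atTop → ∃ ψ : ℕ → ℕ, StrictMono ψ ∧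
      ∃ S ρ : ℝ → ℝ → ℝ, IsLimit (M ∘ ψ) S ρ) ∧
    -- (3) properties of the scaling limits
    (∃ c C : ℝ, 0 < c ∧ ∀ (M : ℕ → ℕ) (S ρ : ℝ → ℝ → ℝ), IsLimit M S ρ →
      ∀ x y : ℝ, 0 < y →
        HasDerivAt (fun u => S u y) (-(ρ x y)) x ∧
        Integrable (fun u => ρ u y) ∧ ∫ u, ρ u y = 1 ∧ ∫ u in Ioi x, ρ u y = S x y ∧
        (0 ≤ x → c * tail x y ≤ S x y ∧ S x y ≤ C * tail x y) ∧
        (x ≤ 0 → c * tail x y ≤ 1 - S x y ∧ 1 - S x y ≤ C * tail x y) ∧
        0 ≤ ρ x y ∧ ρ x y ≤ C * dens x y ∧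
        ∀ x' y' h : ℝ, 0 < h → 8 * h < y → |x' - x| ≤ h → |y' - y| ≤ h →
          |S x' y' - S x y| ≤ C * (h / y) ^ ((5 : ℝ) / 48) ∧
          |ρ x' y' - ρ x y| ≤ C / y * (h / y) ^ ((5 : ℝ) / 48)) ∧
    -- (4) the density is positive
    (∀ K : ℕ, ∃ c : ℝ, 0 < c ∧ ∀ (M : ℕ → ℕ) (S ρ : ℝ → ℝ → ℝ), IsLimit M S ρ →
      ∀ x y : ℝ, 0 < y → |x| ≤ K * y → c * dens x y ≤ ρ x y) ∧
    -- (5) Schramm's formula is equivalent to its local form
    ((∀ x y : ℝ, 0 < y → Tendsto (fun M : ℕ => leftProb ⌊(M : ℝ) * x⌋ ⌊(M : ℝ) * y⌋) atTop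
        (𝓝 (schramm (x / y)))) ↔
      ∀ x y : ℝ, 0 < y → Tendsto (fun M : ℕ => (M : ℝ) * dif ⌊(M : ℝ) * x⌋ ⌊(M : ℝ) * y⌋) atTop
        (𝓝 (dens x y / ∫ u : ℝ, (1 + u ^ 2) ^ (-((2 : ℝ) / 3))))) ∧
    -- (6) convergence implies the convergence of the differences
    ∀ F : ℝ → ℝ → ℝ, (∀ x y : ℝ, 0 < y →
        Tendsto (fun M : ℕ => leftProb ⌊(M : ℝ) * x⌋ ⌊(M : ℝ) * y⌋) atTop (𝓝 (F x y))) →
      ∀ x y : ℝ, 0 < y → DifferentiableAt ℝ (fun u => F u y) x ∧
        Tendsto (fun M : ℕ => (M : ℝ) * dif ⌊(M : ℝ) * x⌋ ⌊(M : ℝ) * y⌋) atTop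
          (𝓝 (-deriv (fun u => F u y) x)) := by
  refine ⟨?_, ?_, ?_, ?_, ?_, ?_, ?_⟩
  · obtain ⟨C, hC, hu⟩ := U167.LP.up_all
    obtain ⟨c, hc, y0, hy0, hl⟩ := U167.LP.low_all
    obtain ⟨C1, hC1, hn1⟩ := U167.LP.sp_near
    obtain ⟨C2, hC2, hn2⟩ := U167.LP.df_near
    refine ⟨c, C + C1 + C2, y0, hc, hy0, ?_⟩
    intro x y hy
    have hyy : (0:ℝ) < y := by exact_mod_cast (by omega : (0:ℤ) < y)
    have h1 := hu x y (by omega)
    have h2 := hl x y hy
    have ht : 0 ≤ tail x y := U167.LP.tl_nonneg hyy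
    have hd : 0 ≤ dens x y := (U167.LP.sd_pos hyy).le
    have c0 : C ≤ C + C1 + C2 := by linarith
    have c1 : C1 ≤ C + C1 + C2 := by linarith
    have c2 : C2 ≤ C + C1 + C2 := by linarith
    simp only [leftProb_eq, dif_eq]
    refine ⟨fun hx => ⟨h2.1 hx, (h1.2.1 hx).trans (mul_le_mul_of_nonneg_right c0 ht)⟩,
      fun hx => ⟨h2.2 hx, (h1.2.2 hx).trans (mul_le_mul_of_nonneg_right c0 ht)⟩,
      ⟨U167.LP.df_nonneg x y, h1.1.trans (mul_le_mul_of_nonneg_right c0 hd)⟩, ?_⟩
    intro x' y' j hj hjy hx' hy'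
    have hp : 0 ≤ ((j : ℝ) / y) ^ ((5 : ℝ) / 48) := by positivity
    refine ⟨(hn1 x y x' y' j hj hjy hx' hy').trans (mul_le_mul_of_nonneg_right c1 hp),
      (hn2 x y x' y' j hj hjy hx' hy').trans (mul_le_mul_of_nonneg_right ?_ hp)⟩
    gcongr
  · intro K
    obtain ⟨c, hc, y0, hy0, h⟩ := U167.LP.df_lower K
    refine ⟨c, y0, hc, ?_⟩
    intro x y hy hx
    rw [dif_eq]
    refine le_trans ?_ (h x y hy hx)
    have hyy : (0:ℝ) < y := by exact_mod_cast (by omega : (0:ℤ) < y)
    have := U167.LP.sd_le (x := x) hyy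
    calc c * dens x y ≤ c * (1 / y) := mul_le_mul_of_nonneg_left this hc.le
      _ = c / y := by ring
  · intro M hM
    obtain ⟨ψ, hψ, S, ρ, h⟩ := U167.LP.exists_lpl hM
    exact ⟨ψ, hψ, S, ρ, (isLimit_iff _ _ _).mpr h⟩
  · obtain ⟨C, hC, hP⟩ := U167.LP.props
    obtain ⟨c, hc, hl⟩ := U167.LP.lim_low
    refine ⟨c, C, hc, ?_⟩
    intro M S ρ h x y hy
    have h0 := (isLimit_iff _ _ _).mp h
    have p := hP _ _ _ h0
    have l := hl _ _ _ h0 x y hy
    refine ⟨p.der hC hy, p.int hC hy, p.total hC hy, p.int_eq hC hy,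
      fun hx => ⟨l.1 hx, p.tail x y hy hx⟩, fun hx => ⟨l.2 hx, p.tail' x y hy hx⟩,
      p.nonnegρ hC hy, p.upper' hC hy, ?_⟩
    intro x' y' k hk hk8 hx' hy'
    exact ⟨p.hol x y x' y' k hy hk hk8 hx' hy', p.holρ x y x' y' k hy hk hk8 hx' hy'⟩
  · intro K
    obtain ⟨c, hc, h⟩ := U167.LP.lower K
    refine ⟨c, hc, ?_⟩
    intro M S ρ hM x y hy hx
    refine le_trans ?_ (h _ _ _ ((isLimit_iff _ _ _).mp hM) x y hy hx)
    have := U167.LP.sd_le (x := x) hy
    calc c * dens x y ≤ c * (1 / y) := mul_le_mul_of_nonneg_left this hc.le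
      _ = c / y := by ring
  · simp only [leftProb_eq, dif_eq]
    exact U167.LP.schramm_iff
  · intro F hF x y hy
    simp only [leftProb_eq] at hF
    obtain ⟨h1, h2⟩ := U167.LP.full_local hF (x := x) hy
    refine ⟨h1.differentiableAt, ?_⟩
    simp only [dif_eq]
    exact h2

end Pool.Agent.Results.MP_6c8efb_pr.LeftPassage
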